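import Pool.Agent.R572.SE.Defs

/-! Counting (helper850). -/

set_option autoImplicit false

open Finset

namespace Pool.Agent.R572.SE

namespace Count

/-- the functions that vanish on the zone -/
def F0 (K lam z : ℕ) : Finset (Fin K → Bool) :=
  univ.filter (fun f => ∀ p : Fin K, (p : ℕ) / lam = z → f p = false)

theorem card_F0 (K lam z : ℕ) (hlam : 0 < lam) (hz : (z + 1) * lam ≤ K) :
    (F0 K lam z).card * 2 ^ lam ≤ 2 ^ K := by
  have h1 : ((F0 K lam z) ×ˢ (univ : Finset (Fin lam → Bool))).card ≤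
      (univ : Finset (Fin K → Bool)).card := by
    refine Finset.card_le_card_of_injOn
      (fun q => fun p : Fin K => if (p : ℕ) / lam = z then q.2 ⟨(p : ℕ) % lam, Nat.mod_lt _ hlam⟩
        else q.1 p) (fun _ _ => mem_univ _) ?_
    rintro ⟨f, g⟩ hf ⟨f', g'⟩ hf' h
    have hf1 := (mem_filter.1 (mem_product.1 hf).1).2
    have hf2 := (mem_filter.1 (mem_product.1 hf').1).2
    simp only at hf1 hf2
    have hp : ∀ p : Fin K, (if (p : ℕ) / lam = z then g ⟨(p : ℕ) % lam, Nat.mod_lt _ hlam⟩
        else f p) = (if (p : ℕ) / lam = z then g' ⟨(p : ℕ) % lam, Nat.mod_lt _ hlam⟩ else f' p) :=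
      fun p => congrFun h p
    refine Prod.ext ?_ ?_
    · funext p
      by_cases hpz : (p : ℕ) / lam = z
      · change f p = f' p
        rw [hf1 p hpz, hf2 p hpz]
      · have := hp p
        rw [if_neg hpz, if_neg hpz] at this
        exact this
    · funext j
      have hj := j.isLt
      have hlt : z * lam + (j : ℕ) < K := by
        have : (z + 1) * lam = z * lam + lam := by ring
        omega
      have hdiv : (z * lam + (j : ℕ)) / lam = z := by
        rw [add_comm, Nat.add_mul_div_right _ _ hlam, Nat.div_eq_of_lt hj, zero_add]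
      have hmod : (z * lam + (j : ℕ)) % lam = (j : ℕ) := by
        rw [add_comm, Nat.add_mul_mod_self_right, Nat.mod_eq_of_lt hj]
      have := hp ⟨z * lam + (j : ℕ), hlt⟩
      rw [if_pos hdiv, if_pos hdiv] at this
      have e : (⟨(z * lam + (j : ℕ)) % lam, Nat.mod_lt _ hlam⟩ : Fin lam) = j :=
        Fin.ext hmod
      rw [e] at this
      exact this
  rw [card_product, card_univ, card_univ, Fintype.card_fun, Fintype.card_fun, Fintype.card_bool,
    Fintype.card_fin, Fintype.card_fin] at h1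
  exact h1

theorem F0_pos (K lam z : ℕ) : 0 < (F0 K lam z).card :=
  card_pos.2 ⟨fun _ => false, mem_filter.2 ⟨mem_univ _, fun _ _ => rfl⟩⟩

end Count

theorem s_count : ∀ (K lam Z B V : ℕ) (KT : Type) [Fintype KT] [DecidableEq KT]
    (v : (Fin K → Bool) → ℕ → ℕ) (key : (Fin K → Bool) → ℕ → KT),
    (∀ x, ∑ z ∈ range Z, v x z ≤ B) → 2 * B ≤ Z * (V + 1) → 0 < Z → 0 < lam → Z * lam ≤ K →
    2 * Fintype.card KT < 2 ^ lam →
    ∃ z < Z, ∃ x y : Fin K → Bool, x ≠ y ∧ (∀ p : Fin K, (p : ℕ) / lam ≠ z → x p = y p) ∧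
      v x z ≤ V ∧ v y z ≤ V ∧ key x z = key y z := by
  intro K lam Z B V KT _ _ v key hv hB hZ hlam hK hKT
  -- a good zone
  obtain ⟨z, hz, hzs⟩ : ∃ z < Z, Z * ∑ x : Fin K → Bool, v x z ≤ B * 2 ^ K := by
    by_contra hcon
    push Not at hcon
    have h1 : ∑ z ∈ range Z, B * 2 ^ K < ∑ z ∈ range Z, Z * ∑ x : Fin K → Bool, v x z :=
      Finset.sum_lt_sum_of_nonempty ⟨0, mem_range.2 hZ⟩ fun z hz => hcon z (mem_range.1 hz)
    rw [sum_const, card_range, smul_eq_mul, ← mul_sum, sum_comm] at h1
    have h2 : ∑ x : Fin K → Bool, ∑ z ∈ range Z, v x z ≤ B * 2 ^ K := by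
      refine (Finset.sum_le_sum fun x _ => hv x).trans ?_
      rw [sum_const, card_univ, Fintype.card_fun, Fintype.card_bool, Fintype.card_fin,
        smul_eq_mul, mul_comm]
    have h3 := Nat.mul_le_mul_left Z h2
    omega
  refine ⟨z, hz, ?_⟩
  -- few messages with many visits
  obtain ⟨N, hN⟩ : ∃ N, N = (univ.filter fun x : Fin K → Bool => V < v x z).card := ⟨_, rfl⟩
  have hN1 : (V + 1) * N ≤ ∑ x : Fin K → Bool, v x z := by
    calc (V + 1) * N = ∑ x ∈ univ.filter (fun x : Fin K → Bool => V < v x z), (V + 1) := by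
          rw [sum_const, smul_eq_mul, hN, mul_comm]
      _ ≤ ∑ x ∈ univ.filter (fun x : Fin K → Bool => V < v x z), v x z :=
          sum_le_sum fun x hx => (mem_filter.1 hx).2
      _ ≤ ∑ x : Fin K → Bool, v x z :=
          sum_le_sum_of_subset (filter_subset _ _)
  have hN2 : 2 * N ≤ 2 ^ K := by
    have h1 : Z * ((V + 1) * N) ≤ B * 2 ^ K := (Nat.mul_le_mul_left Z hN1).trans hzs
    rcases Nat.eq_zero_or_pos B with h0 | h0
    · rw [h0, zero_mul] at h1
      have h2 : Z * ((V + 1) * N) = 0 := Nat.le_zero.1 h1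
      rcases Nat.mul_eq_zero.1 h2 with h3 | h3
      · omega
      · rcases Nat.mul_eq_zero.1 h3 with h4 | h4
        · omega
        · rw [h4]
          exact Nat.zero_le _
    · have h2 : 2 * B * N ≤ Z * (V + 1) * N := Nat.mul_le_mul_right N hB
      have h3 : B * (2 * N) ≤ B * 2 ^ K := by
        calc B * (2 * N) = 2 * B * N := by ring
          _ ≤ Z * (V + 1) * N := h2
          _ = Z * ((V + 1) * N) := by ring
          _ ≤ B * 2 ^ K := h1
      exact Nat.le_of_mul_le_mul_left h3 h0
  have hX : 2 ^ K ≤ 2 * (univ.filter fun x : Fin K → Bool => v x z ≤ V).card := by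
    have h1 := Finset.card_filter_add_card_filter_not
      (s := (univ : Finset (Fin K → Bool))) (fun x : Fin K → Bool => v x z ≤ V)
    have h2 : (univ.filter fun x : Fin K → Bool => ¬ v x z ≤ V).card = N := by
      rw [hN]
      congr 1
      ext x
      simp only [mem_filter, not_le]
    rw [h2, card_univ, Fintype.card_fun, Fintype.card_bool, Fintype.card_fin] at h1
    omega
  -- pigeonhole
  have hzK : (z + 1) * lam ≤ K := (Nat.mul_le_mul_right lam hz).trans hK
  have hF := Count.card_F0 K lam z hlam hzK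
  have hF0 := Count.F0_pos K lam z
  have hlt : ((univ : Finset KT) ×ˢ Count.F0 K lam z).card <
      (univ.filter fun x : Fin K → Bool => v x z ≤ V).card := by
    rw [card_product, card_univ]
    have h1 : 2 * Fintype.card KT * (Count.F0 K lam z).card <
        2 ^ lam * (Count.F0 K lam z).card := Nat.mul_lt_mul_of_pos_right hKT hF0
    have h2 : 2 ^ lam * (Count.F0 K lam z).card = (Count.F0 K lam z).card * 2 ^ lam :=
      mul_comm _ _
    have h3 : 2 * Fintype.card KT * (Count.F0 K lam z).card =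
      2 * (Fintype.card KT * (Count.F0 K lam z).card) := mul_assoc _ _ _
    omega
  obtain ⟨x, hx, y, hy, hxy, he⟩ := Finset.exists_ne_map_eq_of_card_lt_of_maps_to hlt
    (f := fun x : Fin K → Bool => (key x z, fun p : Fin K => if (p : ℕ) / lam = z then false
      else x p)) (fun x _ => by
        refine mem_product.2 ⟨mem_univ _, mem_filter.2 ⟨mem_univ _, fun p hp => ?_⟩⟩
        exact if_pos hp)
  refine ⟨x, y, hxy, fun p hp => ?_, (mem_filter.1 hx).2, (mem_filter.1 hy).2,
    (Prod.ext_iff.1 he).1⟩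
  have h1 := congrFun (Prod.ext_iff.1 he).2 p
  simp only [if_neg hp] at h1
  exact h1

end Pool.Agent.R572.SE
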