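import Mathlib

/-!
# Encoders with slow heads
-/

set_option autoImplicit false

open Finset

namespace Pool.Agent.R572.SE

/-- A nonuniform deterministic program with `k` two-way heads which reads a message of `K` bits and
writes a word of `n` bits: a finite set `Q` of states (a state contains everything which the program
remembers), a first configuration, a move which depends on the state, on the positions of the heads
and on the bits under the heads, and in each step possibly a bit which is written at some place of
the word (places can be chosen in any order, and can be written again).  In one step each head moves by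
at most one position. -/
structure Enc (K n k : ℕ) where
  /-- the states -/
  Q : Type
  [fin : Fintype Q]
  /-- the first state and the first positions of the heads -/
  start : Q × (Fin k → Fin K)
  /-- the move: from the state, the positions and the bits under the heads to the new state
  and the new positions -/
  move : Q → (Fin k → Fin K) → (Fin k → Bool) → Q × (Fin k → Fin K)
  /-- the place and the bit which are written, if any -/
  write : Q → (Fin k → Fin K) → (Fin k → Bool) → Option (Fin n × Bool)
  /-- the heads are slow -/
  slow : ∀ q p l i, ((move q p l).2 i : ℕ) ≤ (p i : ℕ) + 1 ∧ (p i : ℕ) ≤ ((move q p l).2 i : ℕ) + 1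

attribute [instance] Enc.fin

variable {K n k : ℕ}

/-- The configurations: a state and the positions of the heads. -/
abbrev Enc.Cfg (P : Enc K n k) : Type := P.Q × (Fin k → Fin K)

/-- The configuration after `t` steps on the message `x`. -/
def Enc.cfg (P : Enc K n k) (x : Fin K → Bool) (t : ℕ) : P.Cfg :=
  (fun c : P.Cfg => P.move c.1 c.2 (fun i => x (c.2 i)))^[t] P.start

/-- What is written in step `t + 1` on the message `x`. -/
def Enc.emit (P : Enc K n k) (x : Fin K → Bool) (t : ℕ) : Option (Fin n × Bool) :=
  P.write (P.cfg x t).1 (P.cfg x t).2 (fun i => x ((P.cfg x t).2 i))

/-- The word after `t` steps on the message `x`; at the beginning all bits are `false`. -/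
def Enc.tape (P : Enc K n k) (x : Fin K → Bool) : ℕ → Fin n → Bool
  | 0 => fun _ => false
  | t + 1 =>
    match P.emit x t with
    | none => P.tape x t
    | some (i, b) => Function.update (P.tape x t) i b

/-- The zone `z` (of `lam` bits) is next to a head. -/
def near (lam : ℕ) {Q : Type} (c : Q × (Fin k → Fin K)) (z : ℕ) : Prop :=
  ∃ h, z ≤ (c.2 h : ℕ) / lam + 1 ∧ (c.2 h : ℕ) / lam ≤ z + 1

end Pool.Agent.R572.SE
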