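import Pool.Agent.R572.SE.Defs

/-!
# The distance of the words
-/

set_option autoImplicit false

open Finset

namespace Pool.Agent.R572.SE

namespace DistAux

variable {K n k : ℕ}

/-- the place which is written in step `t + 1` -/
def wr (P : Enc K n k) (x : Fin K → Bool) (t : ℕ) : Finset (Fin n) :=
  match P.emit x t with
  | none => ∅
  | some (i, _) => {i}

lemma wr_card (P : Enc K n k) (x : Fin K → Bool) (t : ℕ) : (wr P x t).card ≤ 1 := by
  unfold wr
  rcases P.emit x t with _ | ⟨i, b⟩ <;> simp

lemma tape_succ (P : Enc K n k) (x : Fin K → Bool) (t : ℕ) : P.tape x (t + 1) =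
    match P.emit x t with
    | none => P.tape x t
    | some (i, b) => Function.update (P.tape x t) i b := rfl

lemma tape_of_notMem (P : Enc K n k) (x : Fin K → Bool) (t : ℕ) {i : Fin n} (h : i ∉ wr P x t) :
    P.tape x (t + 1) i = P.tape x t i := by
  rw [tape_succ]
  unfold wr at h
  rcases he : P.emit x t with _ | ⟨i', b⟩
  · rfl
  · rw [he] at h
    simp only [Finset.mem_singleton] at h
    simp only
    exact Function.update_of_ne h _ _

end DistAux

open DistAux

theorem s_dist : ∀ (K n k lam z R T : ℕ) (P : Enc K n k) (x y : Fin K → Bool), 0 < lam →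
    T ≤ R * lam →
    (∀ s < R, P.cfg x (s * lam) = P.cfg y (s * lam) → ¬ near lam (P.cfg x (s * lam)) z →
      (∀ j ≤ lam, P.cfg x (s * lam + j) = P.cfg y (s * lam + j)) ∧
      ∀ j < lam, P.emit x (s * lam + j) = P.emit y (s * lam + j)) →
    ∀ W : Finset ℕ,
    (∀ s < R, near lam (P.cfg x (s * lam)) z → s ∈ W ∧
      P.cfg x (s * lam) = P.cfg y (s * lam) ∧
      P.cfg x ((s + 1) * lam) = P.cfg y ((s + 1) * lam)) →
    hammingDist (P.tape x T) (P.tape y T) ≤ 2 * lam * W.card := by
  intro K n k lam z R T P x y hlam hT hwin W hW
  have hc : ∀ s, s ≤ R → P.cfg x (s * lam) = P.cfg y (s * lam) := by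
    intro s
    induction s with
    | zero =>
      intro _
      rw [Nat.zero_mul]
      rfl
    | succ s ih =>
      intro hs
      have h1 := ih (by omega)
      by_cases hn : near lam (P.cfg x (s * lam)) z
      · exact (hW s (by omega) hn).2.2
      · have h2 := (hwin s (by omega) h1 hn).1 lam le_rfl
        have e : (s + 1) * lam = s * lam + lam := by ring
        rw [e]
        exact h2
  set Wp : Finset (Fin n) := (W ×ˢ range lam).biUnion fun p =>
    wr P x (p.1 * lam + p.2) ∪ wr P y (p.1 * lam + p.2) with hWp
  have hcard : Wp.card ≤ 2 * lam * W.card := by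
    have h1 : ∀ p ∈ W ×ˢ range lam,
        (wr P x (p.1 * lam + p.2) ∪ wr P y (p.1 * lam + p.2)).card ≤ 2 := by
      intro p _
      have h2 := Finset.card_union_le (wr P x (p.1 * lam + p.2)) (wr P y (p.1 * lam + p.2))
      have h3 := wr_card P x (p.1 * lam + p.2)
      have h4 := wr_card P y (p.1 * lam + p.2)
      omega
    have h2 := Finset.card_biUnion_le_card_mul (W ×ˢ range lam) _ 2 h1
    rw [Finset.card_product, Finset.card_range] at h2
    calc Wp.card ≤ W.card * lam * 2 := h2
      _ = 2 * lam * W.card := by ring
  have key : ∀ t, t ≤ T → ∀ i, i ∉ Wp → P.tape x t i = P.tape y t i := by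
    intro t
    induction t with
    | zero => intro _ i _; rfl
    | succ t ih =>
      intro ht i hi
      have h0 := ih (by omega) i hi
      have hdm : t / lam * lam + t % lam = t := Nat.div_add_mod' t lam
      have hsR : t / lam < R := by
        rw [Nat.div_lt_iff_lt_mul hlam]
        omega
      have hj : t % lam < lam := Nat.mod_lt _ hlam
      by_cases hs : t / lam ∈ W
      · have h1 : i ∉ wr P x t ∪ wr P y t := by
          intro h
          refine hi (Finset.mem_biUnion.2 ⟨(t / lam, t % lam),
            Finset.mem_product.2 ⟨hs, Finset.mem_range.2 hj⟩, ?_⟩)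
          simp only
          rw [hdm]
          exact h
        rw [Finset.mem_union, not_or] at h1
        rw [tape_of_notMem P x t h1.1, tape_of_notMem P y t h1.2, h0]
      · have hn : ¬ near lam (P.cfg x (t / lam * lam)) z := fun h => hs (hW _ hsR h).1
        have h1 := (hwin _ hsR (hc _ hsR.le) hn).2 _ hj
        rw [hdm] at h1
        rw [tape_succ, tape_succ, ← h1]
        rcases P.emit x t with _ | ⟨i', b⟩
        · exact h0
        · simp only
          by_cases hii : i = i'
          · subst hii
            simp
          · rw [Function.update_of_ne hii, Function.update_of_ne hii, h0]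
  refine le_trans ?_ hcard
  unfold hammingDist
  refine Finset.card_le_card ?_
  intro i hi
  rw [Finset.mem_filter] at hi
  by_contra h
  exact hi.2 (key T le_rfl i h)

end Pool.Agent.R572.SE
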