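import Pool.Agent.R572.SE.Defs

/-! Piece SE-near (helper159). -/

set_option autoImplicit false

open Finset

namespace Pool.Agent.R572.SE

/-- Few zones are next to a head. -/
theorem s_near : ∀ (K k lam Z : ℕ) (Q : Type) (c : Q × (Fin k → Fin K)),
    ((range Z).filter (fun z => ∃ h, z ≤ (c.2 h : ℕ) / lam + 1 ∧ (c.2 h : ℕ) / lam ≤ z + 1)).card ≤
      3 * k := by
  intro K k lam Z Q c
  have hsub : (range Z).filter
      (fun z => ∃ h, z ≤ (c.2 h : ℕ) / lam + 1 ∧ (c.2 h : ℕ) / lam ≤ z + 1) ⊆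
      (Finset.univ : Finset (Fin k)).biUnion
        (fun h => Finset.Icc ((c.2 h : ℕ) / lam - 1) ((c.2 h : ℕ) / lam + 1)) := by
    intro z hz
    obtain ⟨-, h, h1, h2⟩ := Finset.mem_filter.1 hz
    refine Finset.mem_biUnion.2 ⟨h, Finset.mem_univ _, Finset.mem_Icc.2 ⟨by omega, h1⟩⟩
  refine (Finset.card_le_card hsub).trans (Finset.card_biUnion_le.trans ?_)
  have h3 : ∀ h ∈ (Finset.univ : Finset (Fin k)),
      (Finset.Icc ((c.2 h : ℕ) / lam - 1) ((c.2 h : ℕ) / lam + 1)).card ≤ 3 := by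
    intro h _
    rw [Nat.card_Icc]
    omega
  refine (Finset.sum_le_card_nsmul _ _ 3 h3).trans ?_
  rw [Finset.card_univ, Fintype.card_fin, smul_eq_mul, mul_comm]

end Pool.Agent.R572.SE
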