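import Pool.Agent.R572.SE.Defs

/-! The numbers, case of small zones. -/

set_option autoImplicit false

open Finset

namespace Pool.Agent.R572.SE

theorem s_num1 : ∀ (K k T S M : ℕ), 1 ≤ K → 1 ≤ k → M ≤ 2 ^ S → T ≤ 2 ^ S →
    (3 * S + 2) * (12 * k * (T + K) / K) + 2 ≤ K →
    ∀ V lam : ℕ, V = 12 * k * (T + K) / K → lam = (3 * S + 2) * V + 2 →
    0 < K / lam ∧ 2 * (3 * k * (T / lam + 1)) ≤ (K / lam) * (V + 1) ∧
      2 * ((T / lam + 1) * M ^ 2 + 1) ^ V < 2 ^ lam ∧ T ≤ (T / lam + 1) * lam ∧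
      2 * lam * V * K ^ 2 ≤ 1152 * (k ^ 2 * (S + 1) * (T + K) ^ 2) := by
  intro K k T S M hK hk hM hT hlarge V lam hV hlam
  rw [← hV, ← hlam] at hlarge
  have hlam0 : 0 < lam := by omega
  have hVK : V * K ≤ 12 * k * (T + K) := by rw [hV]; exact Nat.div_mul_le_self _ _
  have hVK2 : 12 * k * (T + K) < K * (V + 1) := by
    rw [hV]; exact Nat.lt_mul_div_succ _ hK
  have hV12 : 12 ≤ V := by
    rw [hV, Nat.le_div_iff_mul_le hK]
    calc 12 * K ≤ 12 * (k * (T + K)) := by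
          apply Nat.mul_le_mul_left
          calc K = 1 * K := (one_mul K).symm
            _ ≤ k * (T + K) := Nat.mul_le_mul hk (Nat.le_add_left K T)
      _ = 12 * k * (T + K) := by ring
  set q := K / lam with hq
  set r := T / lam with hr
  have hq0 : 0 < q := Nat.div_pos hlarge hlam0
  have hKq : K ≤ 2 * lam * q := by
    have h1 : K < lam * (q + 1) := Nat.lt_mul_div_succ K hlam0
    have h2 : lam * (q + 1) ≤ lam * (2 * q) := Nat.mul_le_mul_left _ (by omega)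
    calc K ≤ lam * (2 * q) := (h1.trans_le h2).le
      _ = 2 * lam * q := by ring
  have hrT : r * lam ≤ T := Nat.div_mul_le_self T lam
  refine ⟨hq0, ?_, ?_, ?_, ?_⟩
  · have h1 : 2 * lam * (2 * (3 * k * (r + 1))) ≤ 2 * lam * (q * (V + 1)) := by
      calc 2 * lam * (2 * (3 * k * (r + 1))) = 12 * k * (r * lam + lam) := by ring
        _ ≤ 12 * k * (T + K) := Nat.mul_le_mul_left _ (Nat.add_le_add hrT hlarge)
        _ ≤ K * (V + 1) := hVK2.le
        _ ≤ 2 * lam * q * (V + 1) := Nat.mul_le_mul_right _ hKq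
        _ = 2 * lam * (q * (V + 1)) := by ring
    exact Nat.le_of_mul_le_mul_left h1 (by omega)
  · have h1 : r + 1 ≤ 2 ^ (S + 1) := by
      have h2 : r ≤ T := Nat.div_le_self T lam
      have h3 : 1 ≤ 2 ^ S := Nat.one_le_two_pow
      rw [pow_succ]
      omega
    have h2 : M ^ 2 ≤ 2 ^ (2 * S) := by
      calc M ^ 2 ≤ (2 ^ S) ^ 2 := Nat.pow_le_pow_left hM 2
        _ = 2 ^ (2 * S) := by rw [← pow_mul]; congr 1; ring
    have h3 : (r + 1) * M ^ 2 + 1 ≤ 2 ^ (3 * S + 2) := by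
      have h4 : (r + 1) * M ^ 2 ≤ 2 ^ (3 * S + 1) := by
        calc (r + 1) * M ^ 2 ≤ 2 ^ (S + 1) * 2 ^ (2 * S) := Nat.mul_le_mul h1 h2
          _ = 2 ^ (3 * S + 1) := by rw [← pow_add]; congr 1; ring
      have h5 : 1 ≤ 2 ^ (3 * S + 1) := Nat.one_le_two_pow
      have h6 : 2 ^ (3 * S + 2) = 2 ^ (3 * S + 1) * 2 := pow_succ 2 (3 * S + 1)
      omega
    calc 2 * ((r + 1) * M ^ 2 + 1) ^ V ≤ 2 * (2 ^ (3 * S + 2)) ^ V :=
          Nat.mul_le_mul_left _ (Nat.pow_le_pow_left h3 V)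
      _ = 2 ^ ((3 * S + 2) * V + 1) := by rw [← pow_mul, pow_succ, mul_comm]
      _ < 2 ^ lam := Nat.pow_lt_pow_right (by norm_num) (by omega)
  · have h1 : T < lam * (r + 1) := Nat.lt_mul_div_succ T hlam0
    rw [mul_comm]
    exact h1.le
  · have h1 : lam ≤ 4 * (S + 1) * V := by
      rw [hlam]
      calc (3 * S + 2) * V + 2 ≤ (3 * S + 2) * V + 2 * V := by omega
        _ = (3 * S + 4) * V := by ring
        _ ≤ 4 * (S + 1) * V := Nat.mul_le_mul_right _ (by omega)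
    calc 2 * lam * V * K ^ 2 ≤ 2 * (4 * (S + 1) * V) * V * K ^ 2 := by gcongr
      _ = 8 * (S + 1) * (V * K) ^ 2 := by ring
      _ ≤ 8 * (S + 1) * (12 * k * (T + K)) ^ 2 :=
          Nat.mul_le_mul_left _ (Nat.pow_le_pow_left hVK 2)
      _ = 1152 * (k ^ 2 * (S + 1) * (T + K) ^ 2) := by ring

end Pool.Agent.R572.SE
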