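import Pool.Agent.R572.SE.Defs

set_option autoImplicit false

namespace Pool.Agent.R572.SE

/-- The numbers, case of large zones. -/
theorem s_num2 : ∀ (K k T S d : ℕ), 1 ≤ K → 1 ≤ k → d ≤ 2 * T →
    K < (3 * S + 2) * (12 * k * (T + K) / K) + 2 →
    d * K ^ 2 ≤ 1152 * (k ^ 2 * (S + 1) * (T + K) ^ 2) := by
  intro K k T S d _ hk hd hK
  have hV : 12 * k * (T + K) / K * K ≤ 12 * k * (T + K) := Nat.div_mul_le_self _ _
  set V := 12 * k * (T + K) / K with hVdef
  have h1 : K ^ 2 ≤ (3 * S + 2) * (12 * k * (T + K)) + 2 * K := by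
    calc K ^ 2 = K * K := sq K
      _ ≤ ((3 * S + 2) * V + 2) * K := Nat.mul_le_mul_right K hK.le
      _ = (3 * S + 2) * (V * K) + 2 * K := by ring
      _ ≤ (3 * S + 2) * (12 * k * (T + K)) + 2 * K :=
        Nat.add_le_add_right (Nat.mul_le_mul_left _ hV) _
  have hT : T ≤ T + K := Nat.le_add_right _ _
  have hKT : K ≤ T + K := Nat.le_add_left _ _
  have hkk : k ≤ k ^ 2 := by nlinarith
  calc d * K ^ 2 ≤ (2 * T) * ((3 * S + 2) * (12 * k * (T + K)) + 2 * K) := Nat.mul_le_mul hd h1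
    _ ≤ (2 * (T + K)) * ((3 * S + 2) * (12 * k * (T + K)) + 2 * (T + K)) := by
        apply Nat.mul_le_mul (Nat.mul_le_mul_left _ hT)
        exact Nat.add_le_add_left (Nat.mul_le_mul_left _ hKT) _
    _ = ((72 * S + 48) * k + 4) * (T + K) ^ 2 := by ring
    _ ≤ (1152 * (k ^ 2 * (S + 1))) * (T + K) ^ 2 := by
        apply Nat.mul_le_mul_right
        have h2 : (72 * S + 48) * k ≤ (72 * S + 48) * k ^ 2 := Nat.mul_le_mul_left _ hkk
        have h3 : 1 ≤ k ^ 2 := hk.trans hkk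
        nlinarith [Nat.zero_le (S * k ^ 2)]
    _ = 1152 * (k ^ 2 * (S + 1) * (T + K) ^ 2) := by ring

end Pool.Agent.R572.SE
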