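import Pool.Agent.R572.SE.Defs

/-!
# The words after `T` steps differ in at most `2 T` places
-/

set_option autoImplicit false

open Finset

namespace Pool.Agent.R572.SE

theorem triv_aux {K n k : ℕ} (P : Enc K n k) (x : Fin K → Bool) (T : ℕ) :
    hammingDist (P.tape x T) (fun _ => false) ≤ T := by
  induction T with
  | zero =>
    have h : P.tape x 0 = fun _ => false := rfl
    rw [h, hammingDist_self]
  | succ T ih =>
    have h1 : hammingDist (P.tape x (T + 1)) (P.tape x T) ≤ 1 := by
      have h : P.tape x (T + 1) = match P.emit x T with
        | none => P.tape x T
        | some (i, b) => Function.update (P.tape x T) i b := rfl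
      rw [h]
      cases hE : P.emit x T with
      | none =>
        simp only [hammingDist_self]
        exact Nat.zero_le _
      | some ib =>
        obtain ⟨i, b⟩ := ib
        simp only
        unfold hammingDist
        have hsub : (univ.filter fun j => Function.update (P.tape x T) i b j ≠ P.tape x T j) ⊆
            {i} := by
          intro j hj
          rw [mem_filter] at hj
          rw [mem_singleton]
          by_contra hne
          exact hj.2 (Function.update_of_ne hne _ _)
        exact (card_le_card hsub).trans (by rw [card_singleton])
    have h2 := hammingDist_triangle (P.tape x (T + 1)) (P.tape x T) (fun _ => false)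
    omega

theorem s_triv : ∀ (K n k T : ℕ) (P : Enc K n k) (x y : Fin K → Bool),
    hammingDist (P.tape x T) (P.tape y T) ≤ 2 * T := by
  intro K n k T P x y
  have h1 := triv_aux P x T
  have h2 := triv_aux P y T
  have h3 := hammingDist_triangle (P.tape x T) (fun _ => false) (P.tape y T)
  rw [hammingDist_comm (fun _ => false) (P.tape y T)] at h3
  omega

end Pool.Agent.R572.SE
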