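import Pool.Agent.R572.SE.Defs

/-!
# Encoders with slow heads: an untouched window
-/

set_option autoImplicit false

open Finset

namespace Pool.Agent.R572.SE

theorem Enc.cfg_succ {K n k : ℕ} (P : Enc K n k) (x : Fin K → Bool) (t : ℕ) :
    P.cfg x (t + 1) = P.move (P.cfg x t).1 (P.cfg x t).2 (fun i => x ((P.cfg x t).2 i)) := by
  unfold Enc.cfg
  rw [Function.iterate_succ_apply']

theorem Enc.cfg_slow {K n k : ℕ} (P : Enc K n k) (x : Fin K → Bool) (t : ℕ) (h : Fin k) (j : ℕ) :
    (((P.cfg x (t + j)).2 h : ℕ) ≤ ((P.cfg x t).2 h : ℕ) + j) ∧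
      (((P.cfg x t).2 h : ℕ) ≤ ((P.cfg x (t + j)).2 h : ℕ) + j) := by
  induction j with
  | zero => simp
  | succ j ih =>
    have e : t + (j + 1) = (t + j) + 1 := by ring
    rw [e, Enc.cfg_succ]
    have hs := P.slow (P.cfg x (t + j)).1 (P.cfg x (t + j)).2
      (fun i => x ((P.cfg x (t + j)).2 i)) h
    omega

theorem div_near {a b lam : ℕ} (hl : 0 < lam) (h : a ≤ b + lam) : a / lam ≤ b / lam + 1 := by
  calc a / lam ≤ (b + lam) / lam := Nat.div_le_div_right h
    _ = b / lam + 1 := Nat.add_div_right b hl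

/-- An untouched window. -/
theorem s_win : ∀ (K n k lam z s : ℕ) (P : Enc K n k) (x y : Fin K → Bool), 0 < lam →
    (∀ p : Fin K, (p : ℕ) / lam ≠ z → x p = y p) →
    P.cfg x (s * lam) = P.cfg y (s * lam) → ¬ near lam (P.cfg x (s * lam)) z →
    (∀ j ≤ lam, P.cfg x (s * lam + j) = P.cfg y (s * lam + j)) ∧
    ∀ j < lam, P.emit x (s * lam + j) = P.emit y (s * lam + j) := by
  intro K n k lam z s P x y hl hxy h0 hn
  have hbits : ∀ j < lam, (fun i => x ((P.cfg x (s * lam + j)).2 i)) =
      (fun i => y ((P.cfg x (s * lam + j)).2 i)) := by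
    intro j hj
    funext h
    apply hxy
    intro hz
    apply hn
    obtain ⟨h1, h2⟩ := P.cfg_slow x (s * lam) h j
    refine ⟨h, ?_, ?_⟩
    · rw [← hz]
      exact div_near hl (by omega)
    · rw [← hz]
      exact div_near hl (by omega)
  have hc : ∀ j ≤ lam, P.cfg x (s * lam + j) = P.cfg y (s * lam + j) := by
    intro j
    induction j with
    | zero => intro _; simpa using h0
    | succ j ih =>
      intro hj
      have ih' := ih (by omega)
      have e : s * lam + (j + 1) = (s * lam + j) + 1 := by ring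
      rw [e, Enc.cfg_succ, Enc.cfg_succ, hbits j (by omega), ih']
  refine ⟨hc, fun j hj => ?_⟩
  unfold Enc.emit
  rw [hbits j hj, hc j hj.le]

end Pool.Agent.R572.SE
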