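import Pool.Agent.R572.SE.MainDev
import Pool.Agent.R572.SE.Win
import Pool.Agent.R572.SE.Dist
import Pool.Agent.R572.SE.Near
import Pool.Agent.R572.SE.Triv
import Pool.Agent.R572.SE.Count
import Pool.Agent.R572.SE.Num1
import Pool.Agent.R572.SE.Num2

/-!
# The distance of codes with encoders with slow heads
-/

set_option autoImplicit false

namespace Pool.Agent.R572.SE

theorem main : S_main :=
  main_dev @s_win @s_dist @s_near @s_triv @s_count @s_num1 @s_num2

end Pool.Agent.R572.SE
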