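import Pool.Agent.R572.SE.Stm
import Pool.Agent.R572.SH.Key

set_option autoImplicit false

open Finset

namespace Pool.Agent.R572.SE

theorem main_dev (hwin : S_win) (hdist : S_dist) (hnear : S_near) (htriv : S_triv)
    (hcount : S_count) (hnum1 : S_num1) (hnum2 : S_num2) : S_main := by
  intro K n k T S d P hk hS hT hd
  classical
  rcases Nat.eq_zero_or_pos K with hK0 | hK
  · subst hK0; simp
  -- two different messages
  have hne : ∃ x y : Fin K → Bool, x ≠ y := by
    refine ⟨fun _ => false, fun _ => true, ?_⟩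
    intro h
    exact absurd (congrFun h ⟨0, hK⟩) (by simp)
  have hd2 : d ≤ 2 * T := by
    obtain ⟨x, y, hxy⟩ := hne
    exact (hd x y hxy).trans (htriv K n k T P x y)
  rcases Nat.lt_or_ge K ((3 * S + 2) * (12 * k * (T + K) / K) + 2) with hcase | hcase
  · exact hnum2 K k T S d hK hk hd2 hcase
  have hM : Fintype.card P.Cfg ≤ 2 ^ S := by
    refine le_trans (le_of_eq ?_) hS
    simp [Enc.Cfg]
  obtain ⟨V, hV⟩ : ∃ V, V = 12 * k * (T + K) / K := ⟨_, rfl⟩
  obtain ⟨lam, hlam⟩ : ∃ lam, lam = (3 * S + 2) * V + 2 := ⟨_, rfl⟩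
  obtain ⟨h1, h2, h3, h4, h5⟩ := hnum1 K k T S (Fintype.card P.Cfg) hK hk hM hT hcase V lam hV hlam
  have hlam0 : 0 < lam := by omega
  obtain ⟨R, hR⟩ : ∃ R, R = T / lam + 1 := ⟨_, rfl⟩
  rw [← hR] at h2 h3 h4
  let v : (Fin K → Bool) → ℕ → ℕ := fun x z =>
    (univ.filter (fun s : Fin R => near lam (P.cfg x (s * lam)) z)).card
  let key : (Fin K → Bool) → ℕ → Finset (Fin R × P.Cfg × P.Cfg) := fun x z =>
    (univ.filter (fun s : Fin R => near lam (P.cfg x (s * lam)) z)).image
      (fun s => (s, P.cfg x (s * lam), P.cfg x ((s + 1) * lam)))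
  have hkv : ∀ x z, (key x z).card ≤ v x z := fun x z => card_image_le
  let KT : Type := {A : Finset (Fin R × P.Cfg × P.Cfg) // A.card ≤ V}
  let key' : (Fin K → Bool) → ℕ → KT := fun x z =>
    if h : (key x z).card ≤ V then ⟨key x z, h⟩ else ⟨∅, by simp⟩
  have hcardKT : Fintype.card KT ≤ (R * Fintype.card P.Cfg ^ 2 + 1) ^ V := by
    have e2 := Pool.Agent.R572.SH.s_key (Fin R × P.Cfg × P.Cfg) V
    have e3 : Fintype.card KT =
        ((univ : Finset (Finset (Fin R × P.Cfg × P.Cfg))).filter (fun A => A.card ≤ V)).card := by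
      rw [Fintype.card_subtype]
    rw [e3]
    refine e2.trans (le_of_eq ?_)
    congr 2
    rw [Fintype.card_prod, Fintype.card_prod, Fintype.card_fin, pow_two]
  have hsum : ∀ x, ∑ z ∈ range (K / lam), v x z ≤ 3 * k * R := by
    intro x
    have e1 : ∀ z, v x z = ∑ s : Fin R, if near lam (P.cfg x (s * lam)) z then 1 else 0 := by
      intro z
      simp only [v, card_filter]
    simp only [e1]
    rw [Finset.sum_comm]
    refine (Finset.sum_le_sum (g := fun _ => 3 * k) ?_).trans ?_
    · intro s _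
      rw [← card_filter]
      refine le_trans (Finset.card_le_card ?_) (hnear K k lam (K / lam) P.Q (P.cfg x (s * lam)))
      intro z hz
      rw [Finset.mem_filter] at hz ⊢
      exact hz
    · simp [mul_comm]
  obtain ⟨z, hz, x, y, hxy, hag, hvx, hvy, hkeq⟩ := hcount K lam (K / lam) (3 * k * R) V KT v key'
    hsum h2 h1 hlam0 (Nat.div_mul_le_self K lam)
    (lt_of_le_of_lt (Nat.mul_le_mul_left 2 hcardKT) h3)
  have e1 : (key x z).card ≤ V := (hkv x z).trans hvx
  have e2 : (key y z).card ≤ V := (hkv y z).trans hvy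
  have hkk : key x z = key y z := by
    simp only [key', dif_pos e1, dif_pos e2] at hkeq
    exact congrArg Subtype.val hkeq
  obtain ⟨W, hW⟩ : ∃ W : Finset ℕ, W = Finset.image (Fin.val : Fin R → ℕ)
      (Finset.filter (fun s : Fin R => near lam (P.cfg x ((s : ℕ) * lam)) z) Finset.univ) := ⟨_, rfl⟩
  have hfin := hdist K n k lam z R T P x y hlam0 h4
    (fun s _ h6 h7 => hwin K n k lam z s P x y hlam0 hag h6 h7) W ?_
  · have hc : W.card ≤ V := by
      rw [hW]
      exact Finset.card_image_le.trans hvx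
    have h6 : d ≤ 2 * lam * V := (hd x y hxy).trans (hfin.trans (Nat.mul_le_mul_left _ hc))
    exact (Nat.mul_le_mul_right _ h6).trans h5
  · intro s hs hnr
    refine ⟨?_, ?_⟩
    · rw [hW]
      exact Finset.mem_image.mpr ⟨⟨s, hs⟩, Finset.mem_filter.mpr ⟨Finset.mem_univ _, hnr⟩, rfl⟩
    · have hmem : ((⟨s, hs⟩ : Fin R), P.cfg x (s * lam), P.cfg x ((s + 1) * lam)) ∈ key x z := by
        simp only [key, mem_image, mem_filter, mem_univ, true_and]
        exact ⟨⟨s, hs⟩, hnr, rfl⟩
      rw [hkk] at hmem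
      simp only [key, mem_image, mem_filter, mem_univ, true_and, Prod.mk.injEq] at hmem
      obtain ⟨s', _, h8, h9, h10⟩ := hmem
      subst h8
      exact ⟨h9.symm, h10.symm⟩

end Pool.Agent.R572.SE
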