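import Pool.Agent.R572.SE.Defs

/-! Statements of the pieces. -/

set_option autoImplicit false

open Finset

namespace Pool.Agent.R572.SE

/-- An untouched window. -/
def S_win : Prop := ∀ (K n k lam z s : ℕ) (P : Enc K n k) (x y : Fin K → Bool), 0 < lam →
    (∀ p : Fin K, (p : ℕ) / lam ≠ z → x p = y p) →
    P.cfg x (s * lam) = P.cfg y (s * lam) → ¬ near lam (P.cfg x (s * lam)) z →
    (∀ j ≤ lam, P.cfg x (s * lam + j) = P.cfg y (s * lam + j)) ∧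
    ∀ j < lam, P.emit x (s * lam + j) = P.emit y (s * lam + j)

/-- The distance of the words, from `S_win`. -/
def S_dist : Prop := ∀ (K n k lam z R T : ℕ) (P : Enc K n k) (x y : Fin K → Bool), 0 < lam →
    T ≤ R * lam →
    (∀ s < R, P.cfg x (s * lam) = P.cfg y (s * lam) → ¬ near lam (P.cfg x (s * lam)) z →
      (∀ j ≤ lam, P.cfg x (s * lam + j) = P.cfg y (s * lam + j)) ∧
      ∀ j < lam, P.emit x (s * lam + j) = P.emit y (s * lam + j)) →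
    ∀ W : Finset ℕ,
    (∀ s < R, near lam (P.cfg x (s * lam)) z → s ∈ W ∧
      P.cfg x (s * lam) = P.cfg y (s * lam) ∧
      P.cfg x ((s + 1) * lam) = P.cfg y ((s + 1) * lam)) →
    hammingDist (P.tape x T) (P.tape y T) ≤ 2 * lam * W.card

/-- Few zones are next to a head. -/
def S_near : Prop := ∀ (K k lam Z : ℕ) (Q : Type) (c : Q × (Fin k → Fin K)),
    ((range Z).filter (fun z => ∃ h, z ≤ (c.2 h : ℕ) / lam + 1 ∧ (c.2 h : ℕ) / lam ≤ z + 1)).card ≤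
      3 * k

/-- The words after `T` steps differ in at most `2 T` places. -/
def S_triv : Prop := ∀ (K n k T : ℕ) (P : Enc K n k) (x y : Fin K → Bool),
    hammingDist (P.tape x T) (P.tape y T) ≤ 2 * T

/-- Counting. -/
def S_count : Prop := ∀ (K lam Z B V : ℕ) (KT : Type) [Fintype KT] [DecidableEq KT]
    (v : (Fin K → Bool) → ℕ → ℕ) (key : (Fin K → Bool) → ℕ → KT),
    (∀ x, ∑ z ∈ range Z, v x z ≤ B) → 2 * B ≤ Z * (V + 1) → 0 < Z → 0 < lam → Z * lam ≤ K →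
    2 * Fintype.card KT < 2 ^ lam →
    ∃ z < Z, ∃ x y : Fin K → Bool, x ≠ y ∧ (∀ p : Fin K, (p : ℕ) / lam ≠ z → x p = y p) ∧
      v x z ≤ V ∧ v y z ≤ V ∧ key x z = key y z

/-- The numbers, case of small zones. -/
def S_num1 : Prop := ∀ (K k T S M : ℕ), 1 ≤ K → 1 ≤ k → M ≤ 2 ^ S → T ≤ 2 ^ S →
    (3 * S + 2) * (12 * k * (T + K) / K) + 2 ≤ K →
    ∀ V lam : ℕ, V = 12 * k * (T + K) / K → lam = (3 * S + 2) * V + 2 →
    0 < K / lam ∧ 2 * (3 * k * (T / lam + 1)) ≤ (K / lam) * (V + 1) ∧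
      2 * ((T / lam + 1) * M ^ 2 + 1) ^ V < 2 ^ lam ∧ T ≤ (T / lam + 1) * lam ∧
      2 * lam * V * K ^ 2 ≤ 1152 * (k ^ 2 * (S + 1) * (T + K) ^ 2)

/-- The numbers, case of large zones. -/
def S_num2 : Prop := ∀ (K k T S d : ℕ), 1 ≤ K → 1 ≤ k → d ≤ 2 * T →
    K < (3 * S + 2) * (12 * k * (T + K) / K) + 2 →
    d * K ^ 2 ≤ 1152 * (k ^ 2 * (S + 1) * (T + K) ^ 2)

/-- The theorem. -/
def S_main : Prop := ∀ (K n k T S d : ℕ) (P : Enc K n k), 1 ≤ k →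
    Fintype.card P.Q * K ^ k ≤ 2 ^ S → T ≤ 2 ^ S →
    (∀ x y : Fin K → Bool, x ≠ y → d ≤ hammingDist (P.tape x T) (P.tape y T)) →
    d * K ^ 2 ≤ 1152 * (k ^ 2 * (S + 1) * (T + K) ^ 2)

end Pool.Agent.R572.SE
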